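import Pool.Agent.N822.TO.Stm

/-!
# A tube is contained in a box tube (project TO, part BOX)
-/

set_option autoImplicit false

namespace Pool.Agent.N878.TO

open Pool.Agent.N822.TO

theorem t_BOX : S_BOX := by
  intro d p v w hv
  have hne : Nonempty (Fin d) := by
    by_contra h
    rw [not_nonempty_iff] at h
    apply hv
    ext i
    exact h.elim i
  obtain ⟨j, hj⟩ := Finite.exists_max fun k => |v k|
  have hvj : v j ≠ 0 := by
    intro h0
    apply hv
    ext k
    have := hj k
    rw [h0, abs_zero] at this
    simpa using abs_nonpos_iff.1 this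
  refine ⟨j, fun k => v k / v j, fun k => p k - v k / v j * p j, fun k => ?_, ?_⟩
  · rw [abs_div]
    exact div_le_one_of_le₀ (hj k) (abs_nonneg _)
  · intro x hx k _
    have hα : |v k / v j| ≤ 1 := by
      rw [abs_div]
      exact div_le_one_of_le₀ (hj k) (abs_nonneg _)
    refine le_of_forall_pos_le_add fun (ε : ℝ) hε => ?_
    have hx' : Metric.infDist x (Set.range fun t : ℝ => p + t • v) ≤ w / 2 := hx
    have hlt : Metric.infDist x (Set.range fun t : ℝ => p + t • v) < w / 2 + ε / 2 := by
      have : 0 < ε := hε
      linarith
    obtain ⟨y, ⟨t, rfl⟩, hy⟩ := (Metric.infDist_lt_iff (Set.range_nonempty _)).1 hlt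
    have hc : ∀ i, |x i - (p + t • v) i| ≤ dist x (p + t • v) := by
      intro i
      rw [dist_eq_norm]
      have := PiLp.norm_apply_le (p := 2) (x - (p + t • v)) i
      rw [Real.norm_eq_abs] at this
      exact this
    have h1 := hc k
    have h2 := hc j
    have e1 : (p + t • v) k = p k + t * v k := rfl
    have e2 : (p + t • v) j = p j + t * v j := rfl
    have key : x k - v k / v j * x j - (p k - v k / v j * p j) =
        (x k - (p + t • v) k) - v k / v j * (x j - (p + t • v) j) := by
      rw [e1, e2]
      field_simp
      ring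
    rw [key]
    calc |(x k - (p + t • v) k) - v k / v j * (x j - (p + t • v) j)|
        ≤ |x k - (p + t • v) k| + |v k / v j * (x j - (p + t • v) j)| := abs_sub _ _
      _ ≤ dist x (p + t • v) + 1 * dist x (p + t • v) := by
          rw [abs_mul]
          gcongr
      _ ≤ w + ε := by linarith

end Pool.Agent.N878.TO

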